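import Mathlib
import Pool.Agent.TH202.Ex
import Pool.Agent.TH202.Cen

/-!
# The model `X`: algebraicity, the ample divisor and the free systems
-/

set_option autoImplicit false

namespace Pool.Agent.TH551.C8_XM1

open Pool.Agent.H436R3.Fol Pool.Agent.TH202

variable {K : Type} [Field K] [Algebra ℂ K]

theorem alg_of {d : Dat K} {B : Subalgebra ℂ K} (ha : IsAlgebraic B d.a) (hb : IsAlgebraic B d.b)
    (hc : IsAlgebraic B d.c) (f : K) : IsAlgebraic B f := by
  have hconst : ∀ z : ℂ, IsAlgebraic B (algebraMap ℂ K z) := fun z => by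
    have : algebraMap ℂ K z = algebraMap B K ⟨algebraMap ℂ K z, B.algebraMap_mem z⟩ := rfl
    rw [this]
    exact isAlgebraic_algebraMap _
  have hI : ∀ g ∈ IntermediateField.adjoin ℂ ({d.a, d.b, d.c} : Set K), IsAlgebraic B g := by
    intro g hg
    refine IntermediateField.adjoin_induction ℂ (p := fun g _ => IsAlgebraic B g) ?_ hconst
      (fun x y _ _ hx hy => hx.add hy) (fun x _ hx => hx.inv) (fun x y _ _ hx hy => hx.mul hy) hg
    intro x hx
    rcases hx with rfl | rfl | rfl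
    · exact ha
    · exact hb
    · exact hc
  have ha1 : (1 - d.a ^ 2 : K) ≠ 0 := by
    intro h0
    refine d.ind.transcendental 0 ⟨1 - Polynomial.X ^ 2, ?_, ?_⟩
    · intro h1
      have := congrArg (Polynomial.eval 0) h1
      simp at this
    · simp only [Matrix.cons_val_zero, map_sub, map_one, map_pow, Polynomial.aeval_X]
      exact h0
  have hr : IsAlgebraic B d.r := by
    refine IsAlgebraic.of_pow (n := 3) (by norm_num) ?_
    have h1 : d.b ^ 2 * (1 - d.a ^ 2) ≠ 0 := mul_ne_zero (pow_ne_zero _ d.b_ne) ha1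
    have h2 : d.r ^ 3 = d.a ^ 2 * (1 - d.b ^ 2) * (d.b ^ 2 * (1 - d.a ^ 2))⁻¹ := by
      rw [← d.r3, mul_assoc, mul_inv_cancel₀ h1, mul_one]
    rw [h2]
    exact ((ha.pow 2).mul (isAlgebraic_one.sub (hb.pow 2))).mul
      ((hb.pow 2).mul (isAlgebraic_one.sub (ha.pow 2))).inv
  obtain ⟨g0, h0, g1, h1, g2, h2, rfl⟩ := d.gen f
  exact ((hI g0 h0).add ((hI g1 h1).mul hr)).add ((hI g2 h2).mul (hr.pow 2))

theorem xi_alg (d : Dat K) : XiAlg d := by
  intro i f
  have hr : ∀ j, IsAlgebraic (Algebra.adjoin ℂ (Set.range fun j => xi d j / xi d i))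
      (xi d j / xi d i) := fun j => by
    have : xi d j / xi d i = algebraMap (Algebra.adjoin ℂ (Set.range fun j => xi d j / xi d i)) K
      ⟨xi d j / xi d i, Algebra.subset_adjoin ⟨j, rfl⟩⟩ := rfl
    rw [this]
    exact isAlgebraic_algebraMap _
  have hq : ∀ j k, IsAlgebraic (Algebra.adjoin ℂ (Set.range fun j => xi d j / xi d i))
      (xi d j / xi d k) := fun j k => by
    have hi := xi_ne d i
    have hk := xi_ne d k
    have : xi d j / xi d k = (xi d j / xi d i) * (xi d k / xi d i)⁻¹ := by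
      field_simp
    rw [this]
    exact (hr j).mul (hr k).inv
  have ha0 := d.a_ne
  have hb0 := d.b_ne
  have hc0 := d.c_ne
  refine alg_of (d := d) ?_ ?_ ?_ f
  · have h := hq 3 0
    have h1 : xi d 3 / xi d 0 = d.a := by
      change d.a ^ 2 / d.a = d.a
      field_simp
    rwa [h1] at h
  · have h := hq 4 1
    have h1 : xi d 4 / xi d 1 = d.b := by
      change d.b ^ 2 / d.b = d.b
      field_simp
    rwa [h1] at h
  · have h := hq 5 2
    have h1 : xi d 5 / xi d 2 = d.c := by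
      change d.c ^ 2 / d.c = d.c
      field_simp
    rwa [h1] at h

theorem Lin_eq_of {m : ℕ} {f : Fin (m + 1) → K} {v : DVal K} {x : ℝ}
    (h : ∀ j, -(v.ord (f j) : ℝ) ≤ x) (k : Fin (m + 1)) (hk : x ≤ -(v.ord (f k) : ℝ)) :
    Lin f v = x := by
  apply le_antisymm
  · exact Finset.sup'_le _ _ fun j _ => h j
  · exact hk.trans (Finset.le_sup' (fun j => -(v.ord (f j) : ℝ)) (Finset.mem_univ k))

theorem Lin_one (f : K) (v : DVal K) : Lin (m := 1) ![1, f] v = ng (v.ord f) := by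
  unfold ng
  rcases le_total (0 : ℝ) (-(v.ord f : ℝ)) with h | h
  · refine Lin_eq_of (fun j => ?_) 1 ?_
    · fin_cases j
      · simp [v.ord_one]
      · simp
    · simp [h]
  · refine Lin_eq_of (fun j => ?_) 0 ?_
    · fin_cases j
      · simp [v.ord_one]
      · simp
    · simp only [Matrix.cons_val_zero, v.ord_one]
      rw [max_eq_left h]
      simp

section ords

variable (d : Dat K) (v : DVal K)

theorem xi_ord : ∀ j, (v.ord (xi d j) : ℝ) =
    ![(v.ord d.a : ℝ), v.ord d.b, v.ord d.c, 2 * v.ord d.a, 2 * v.ord d.b, 2 * v.ord d.c,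
      2 * v.ord d.a + 2 * v.ord d.b, 2 * v.ord d.b + 2 * v.ord d.c, 2 * v.ord d.a + 2 * v.ord d.c,
      2 * v.ord d.a + 2 * v.ord d.b + 2 * v.ord d.c] j := by
  have ha := d.a_ne
  have hb := d.b_ne
  have hc := d.c_ne
  have ha2 := pow_ne_zero 2 ha
  have hb2 := pow_ne_zero 2 hb
  have hc2 := pow_ne_zero 2 hc
  intro j
  fin_cases j <;>
  simp [xi, v.map_mul _ _ ha2 hb2, v.map_mul _ _ hb2 hc2, v.map_mul _ _ ha2 hc2,
    v.map_mul _ _ (mul_ne_zero ha2 hb2) hc2, v.ord_pow ha, v.ord_pow hb, v.ord_pow hc]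

theorem sv_ord : ∀ j : Fin 7, (v.ord ((![d.a, d.b, d.c, d.a * d.b, d.b * d.c, d.a * d.c,
      d.a * d.b * d.c] : Fin 7 → K) j) : ℝ) =
    (![(v.ord d.a : ℝ), v.ord d.b, v.ord d.c, v.ord d.a + v.ord d.b, v.ord d.b + v.ord d.c,
      v.ord d.a + v.ord d.c, v.ord d.a + v.ord d.b + v.ord d.c] : Fin 7 → ℝ) j := by
  have ha := d.a_ne
  have hb := d.b_ne
  have hc := d.c_ne
  intro j
  fin_cases j <;>
  simp [v.map_mul _ _ ha hb, v.map_mul _ _ hb hc, v.map_mul _ _ ha hc,
    v.map_mul _ _ (mul_ne_zero ha hb) hc]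

end ords

theorem H_eq (d : Dat K) (h : XiAlg d) (v : DVal K) :
    (Xd d h).H v = 2 * (ng (v.ord d.a) + ng (v.ord d.b) + ng (v.ord d.c)) - mn d v := by
  change Lin (m := 9) (xi d) v = _
  unfold ng mn
  have hx := xi_ord d v
  generalize (v.ord d.a : ℝ) = al at *
  generalize (v.ord d.b : ℝ) = be at *
  generalize (v.ord d.c : ℝ) = ga at *
  have e0 := hx 0
  have e1 := hx 1
  have e2 := hx 2
  have e3 := hx 3
  have e4 := hx 4
  have e5 := hx 5
  have e6 := hx 6
  have e7 := hx 7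
  have e8 := hx 8
  have e9 := hx 9
  simp at e0 e1 e2 e3 e4 e5 e6 e7 e8 e9
  have hmn1 : min al (min be ga) ≤ al := min_le_left _ _
  have hmn2 : min al (min be ga) ≤ be := (min_le_right _ _).trans (min_le_left _ _)
  have hmn3 : min al (min be ga) ≤ ga := (min_le_right _ _).trans (min_le_right _ _)
  have hng1 := le_max_left 0 (-al)
  have hng2 := le_max_left 0 (-be)
  have hng3 := le_max_left 0 (-ga)
  have hng1' := le_max_right 0 (-al)
  have hng2' := le_max_right 0 (-be)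
  have hng3' := le_max_right 0 (-ga)
  have hm0 := le_max_left 0 (min al (min be ga))
  have hm0' := le_max_right 0 (min al (min be ga))
  -- the basic inequality
  have hmm : max 0 (min al (min be ga)) = 0 ∨ (0 < al ∧ 0 < be ∧ 0 < ga ∧
      max 0 (min al (min be ga)) = min al (min be ga)) := by
    rcases le_or_gt (min al (min be ga)) 0 with h0 | h0
    · left; exact max_eq_left h0
    · right
      exact ⟨h0.trans_le hmn1, h0.trans_le hmn2, h0.trans_le hmn3, max_eq_right h0.le⟩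
  have hle : ∀ j, -(v.ord (xi d j) : ℝ) ≤ 2 * (max 0 (-al) + max 0 (-be) + max 0 (-ga)) -
      max 0 (min al (min be ga)) := by
    intro j
    fin_cases j
    · change -(v.ord (xi d 0) : ℝ) ≤ _
      rw [e0]; rcases hmm with h | ⟨h1, h2, h3, h⟩ <;> rw [h] <;> linarith
    · change -(v.ord (xi d 1) : ℝ) ≤ _
      rw [e1]; rcases hmm with h | ⟨h1, h2, h3, h⟩ <;> rw [h] <;> linarith
    · change -(v.ord (xi d 2) : ℝ) ≤ _
      rw [e2]; rcases hmm with h | ⟨h1, h2, h3, h⟩ <;> rw [h] <;> linarith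
    · change -(v.ord (xi d 3) : ℝ) ≤ _
      rw [e3]; rcases hmm with h | ⟨h1, h2, h3, h⟩ <;> rw [h] <;> linarith
    · change -(v.ord (xi d 4) : ℝ) ≤ _
      rw [e4]; rcases hmm with h | ⟨h1, h2, h3, h⟩ <;> rw [h] <;> linarith
    · change -(v.ord (xi d 5) : ℝ) ≤ _
      rw [e5]; rcases hmm with h | ⟨h1, h2, h3, h⟩ <;> rw [h] <;> linarith
    · change -(v.ord (xi d 6) : ℝ) ≤ _
      rw [e6]; rcases hmm with h | ⟨h1, h2, h3, h⟩ <;> rw [h] <;> linarith
    · change -(v.ord (xi d 7) : ℝ) ≤ _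
      rw [e7]; rcases hmm with h | ⟨h1, h2, h3, h⟩ <;> rw [h] <;> linarith
    · change -(v.ord (xi d 8) : ℝ) ≤ _
      rw [e8]; rcases hmm with h | ⟨h1, h2, h3, h⟩ <;> rw [h] <;> linarith
    · change -(v.ord (xi d 9) : ℝ) ≤ _
      rw [e9]; rcases hmm with h | ⟨h1, h2, h3, h⟩ <;> rw [h] <;> linarith
  rcases le_or_gt al 0 with ha | ha <;> rcases le_or_gt be 0 with hb | hb <;>
    rcases le_or_gt ga 0 with hc | hc
  · refine Lin_eq_of hle 9 ?_
    rw [e9, max_eq_right (by linarith : 0 ≤ -al), max_eq_right (by linarith : 0 ≤ -be),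
      max_eq_right (by linarith : 0 ≤ -ga)]
    linarith
  · refine Lin_eq_of hle 6 ?_
    rw [e6, max_eq_right (by linarith : 0 ≤ -al), max_eq_right (by linarith : 0 ≤ -be),
      max_eq_left (by linarith : -ga ≤ 0)]
    linarith
  · refine Lin_eq_of hle 8 ?_
    rw [e8, max_eq_right (by linarith : 0 ≤ -al), max_eq_left (by linarith : -be ≤ 0),
      max_eq_right (by linarith : 0 ≤ -ga)]
    linarith
  · refine Lin_eq_of hle 3 ?_
    rw [e3, max_eq_right (by linarith : 0 ≤ -al), max_eq_left (by linarith : -be ≤ 0),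
      max_eq_left (by linarith : -ga ≤ 0)]
    linarith
  · refine Lin_eq_of hle 7 ?_
    rw [e7, max_eq_left (by linarith : -al ≤ 0), max_eq_right (by linarith : 0 ≤ -be),
      max_eq_right (by linarith : 0 ≤ -ga)]
    linarith
  · refine Lin_eq_of hle 4 ?_
    rw [e4, max_eq_left (by linarith : -al ≤ 0), max_eq_right (by linarith : 0 ≤ -be),
      max_eq_left (by linarith : -ga ≤ 0)]
    linarith
  · refine Lin_eq_of hle 5 ?_
    rw [e5, max_eq_left (by linarith : -al ≤ 0), max_eq_left (by linarith : -be ≤ 0),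
      max_eq_right (by linarith : 0 ≤ -ga)]
    linarith
  · rcases min_choice al (min be ga) with h1 | h1
    · refine Lin_eq_of hle 0 ?_
      rw [e0, h1, max_eq_left (by linarith : -al ≤ 0), max_eq_left (by linarith : -be ≤ 0),
        max_eq_left (by linarith : -ga ≤ 0), max_eq_right (by linarith : 0 ≤ al)]
      linarith
    · rcases min_choice be ga with h2 | h2
      · refine Lin_eq_of hle 1 ?_
        rw [e1, h1, h2, max_eq_left (by linarith : -al ≤ 0), max_eq_left (by linarith : -be ≤ 0),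
          max_eq_left (by linarith : -ga ≤ 0), max_eq_right (by linarith : 0 ≤ be)]
        linarith
      · refine Lin_eq_of hle 2 ?_
        rw [e2, h1, h2, max_eq_left (by linarith : -al ≤ 0), max_eq_left (by linarith : -be ≤ 0),
          max_eq_left (by linarith : -ga ≤ 0), max_eq_right (by linarith : 0 ≤ ga)]
        linarith

theorem Lin_seven (d : Dat K) (v : DVal K) :
    Lin (m := 6) ![d.a, d.b, d.c, d.a * d.b, d.b * d.c, d.a * d.c, d.a * d.b * d.c] v =
      ng (v.ord d.a) + ng (v.ord d.b) + ng (v.ord d.c) - mn d v := by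
  unfold ng mn
  have hx := sv_ord d v
  generalize hF : (![d.a, d.b, d.c, d.a * d.b, d.b * d.c, d.a * d.c, d.a * d.b * d.c] :
    Fin 7 → K) = F at *
  generalize (v.ord d.a : ℝ) = al at *
  generalize (v.ord d.b : ℝ) = be at *
  generalize (v.ord d.c : ℝ) = ga at *
  have e0 := hx 0
  have e1 := hx 1
  have e2 := hx 2
  have e3 := hx 3
  have e4 := hx 4
  have e5 := hx 5
  have e6 := hx 6
  simp at e0 e1 e2 e3 e4 e5 e6
  have hmn1 : min al (min be ga) ≤ al := min_le_left _ _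
  have hmn2 : min al (min be ga) ≤ be := (min_le_right _ _).trans (min_le_left _ _)
  have hmn3 : min al (min be ga) ≤ ga := (min_le_right _ _).trans (min_le_right _ _)
  have hng1 := le_max_left 0 (-al)
  have hng2 := le_max_left 0 (-be)
  have hng3 := le_max_left 0 (-ga)
  have hng1' := le_max_right 0 (-al)
  have hng2' := le_max_right 0 (-be)
  have hng3' := le_max_right 0 (-ga)
  have hm0 := le_max_left 0 (min al (min be ga))
  have hm0' := le_max_right 0 (min al (min be ga))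
  have hmm : max 0 (min al (min be ga)) = 0 ∨ (0 < al ∧ 0 < be ∧ 0 < ga ∧
      max 0 (min al (min be ga)) = min al (min be ga)) := by
    rcases le_or_gt (min al (min be ga)) 0 with h0 | h0
    · left; exact max_eq_left h0
    · right
      exact ⟨h0.trans_le hmn1, h0.trans_le hmn2, h0.trans_le hmn3, max_eq_right h0.le⟩
  have hle : ∀ j, -(v.ord (F j) : ℝ) ≤ (max 0 (-al) + max 0 (-be) + max 0 (-ga)) -
      max 0 (min al (min be ga)) := by
    intro j
    fin_cases j
    · change -(v.ord (F 0) : ℝ) ≤ _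
      rw [e0]; rcases hmm with h | ⟨h1, h2, h3, h⟩ <;> rw [h] <;> linarith
    · change -(v.ord (F 1) : ℝ) ≤ _
      rw [e1]; rcases hmm with h | ⟨h1, h2, h3, h⟩ <;> rw [h] <;> linarith
    · change -(v.ord (F 2) : ℝ) ≤ _
      rw [e2]; rcases hmm with h | ⟨h1, h2, h3, h⟩ <;> rw [h] <;> linarith
    · change -(v.ord (F 3) : ℝ) ≤ _
      rw [e3]; rcases hmm with h | ⟨h1, h2, h3, h⟩ <;> rw [h] <;> linarith
    · change -(v.ord (F 4) : ℝ) ≤ _
      rw [e4]; rcases hmm with h | ⟨h1, h2, h3, h⟩ <;> rw [h] <;> linarith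
    · change -(v.ord (F 5) : ℝ) ≤ _
      rw [e5]; rcases hmm with h | ⟨h1, h2, h3, h⟩ <;> rw [h] <;> linarith
    · change -(v.ord (F 6) : ℝ) ≤ _
      rw [e6]; rcases hmm with h | ⟨h1, h2, h3, h⟩ <;> rw [h] <;> linarith
  rcases le_or_gt al 0 with ha | ha <;> rcases le_or_gt be 0 with hb | hb <;>
    rcases le_or_gt ga 0 with hc | hc
  · refine Lin_eq_of hle 6 ?_
    rw [e6, max_eq_right (by linarith : 0 ≤ -al), max_eq_right (by linarith : 0 ≤ -be),
      max_eq_right (by linarith : 0 ≤ -ga)]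
    linarith
  · refine Lin_eq_of hle 3 ?_
    rw [e3, max_eq_right (by linarith : 0 ≤ -al), max_eq_right (by linarith : 0 ≤ -be),
      max_eq_left (by linarith : -ga ≤ 0)]
    linarith
  · refine Lin_eq_of hle 5 ?_
    rw [e5, max_eq_right (by linarith : 0 ≤ -al), max_eq_left (by linarith : -be ≤ 0),
      max_eq_right (by linarith : 0 ≤ -ga)]
    linarith
  · refine Lin_eq_of hle 0 ?_
    rw [e0, max_eq_right (by linarith : 0 ≤ -al), max_eq_left (by linarith : -be ≤ 0),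
      max_eq_left (by linarith : -ga ≤ 0)]
    linarith
  · refine Lin_eq_of hle 4 ?_
    rw [e4, max_eq_left (by linarith : -al ≤ 0), max_eq_right (by linarith : 0 ≤ -be),
      max_eq_right (by linarith : 0 ≤ -ga)]
    linarith
  · refine Lin_eq_of hle 1 ?_
    rw [e1, max_eq_left (by linarith : -al ≤ 0), max_eq_right (by linarith : 0 ≤ -be),
      max_eq_left (by linarith : -ga ≤ 0)]
    linarith
  · refine Lin_eq_of hle 2 ?_
    rw [e2, max_eq_left (by linarith : -al ≤ 0), max_eq_left (by linarith : -be ≤ 0),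
      max_eq_right (by linarith : 0 ≤ -ga)]
    linarith
  · rcases min_choice al (min be ga) with h1 | h1
    · refine Lin_eq_of hle 0 ?_
      rw [e0, h1, max_eq_left (by linarith : -al ≤ 0), max_eq_left (by linarith : -be ≤ 0),
        max_eq_left (by linarith : -ga ≤ 0), max_eq_right (by linarith : 0 ≤ al)]
      linarith
    · rcases min_choice be ga with h2 | h2
      · refine Lin_eq_of hle 1 ?_
        rw [e1, h1, h2, max_eq_left (by linarith : -al ≤ 0), max_eq_left (by linarith : -be ≤ 0),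
          max_eq_left (by linarith : -ga ≤ 0), max_eq_right (by linarith : 0 ≤ be)]
        linarith
      · refine Lin_eq_of hle 2 ?_
        rw [e2, h1, h2, max_eq_left (by linarith : -al ≤ 0), max_eq_left (by linarith : -be ≤ 0),
          max_eq_left (by linarith : -ga ≤ 0), max_eq_right (by linarith : 0 ≤ ga)]
        linarith

section free

variable (d : Dat K) (h : XiAlg d)

theorem ratio (i j : Fin 10) : xi d j / xi d i ∈ (Xd d h).R i := ratio_mem_R (Xd d h) i j

theorem sq_mem (i : Fin 10) {f : K} (hf : f ^ 2 ∈ (Xd d h).R i) : f ∈ (Xd d h).R i := by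
  apply R_normal
  have h1 : IsIntegral ((Xd d h).R i) (f ^ 2) :=
    isIntegral_algebraMap (R := (Xd d h).R i) (x := (⟨f ^ 2, hf⟩ : (Xd d h).R i))
  exact IsIntegral.of_pow (by norm_num) h1

/-- The factors `s` (equal to `t` or `1`) with `1 / s` and `t / s` regular. -/
def Fac (S : Subalgebra ℂ K) (t s : K) : Prop := s⁻¹ ∈ S ∧ t / s ∈ S

theorem fac_inv {S : Subalgebra ℂ K} {t : K} (ht : t ≠ 0) (h : t⁻¹ ∈ S) : Fac S t t :=
  ⟨h, by rw [div_self ht]; exact one_mem _⟩

theorem fac_one {S : Subalgebra ℂ K} {t : K} (h : t ∈ S) : Fac S t 1 :=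
  ⟨by rw [inv_one]; exact one_mem _, by rw [div_one]; exact h⟩

/-- The seven monomials. -/
def mon (a b c : K) : Fin 7 → K := ![a, b, c, a * b, b * c, a * c, a * b * c]

theorem mon_fac {S : Subalgebra ℂ K} {a b c sa sb sc : K} (ha : Fac S a sa) (hb : Fac S b sb)
    (hc : Fac S c sc) : ∀ j, mon a b c j / (sa * sb * sc) ∈ S := by
  obtain ⟨ha1, ha2⟩ := ha
  obtain ⟨hb1, hb2⟩ := hb
  obtain ⟨hc1, hc2⟩ := hc
  intro j
  fin_cases j
  · change a / (sa * sb * sc) ∈ S
    have : a / (sa * sb * sc) = a / sa * sb⁻¹ * sc⁻¹ := by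
      rw [div_eq_mul_inv, div_eq_mul_inv, mul_inv, mul_inv]; ring
    rw [this]; exact mul_mem (mul_mem ha2 hb1) hc1
  · change b / (sa * sb * sc) ∈ S
    have : b / (sa * sb * sc) = sa⁻¹ * (b / sb) * sc⁻¹ := by
      rw [div_eq_mul_inv, div_eq_mul_inv, mul_inv, mul_inv]; ring
    rw [this]; exact mul_mem (mul_mem ha1 hb2) hc1
  · change c / (sa * sb * sc) ∈ S
    have : c / (sa * sb * sc) = sa⁻¹ * sb⁻¹ * (c / sc) := by
      rw [div_eq_mul_inv, div_eq_mul_inv, mul_inv, mul_inv]; ring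
    rw [this]; exact mul_mem (mul_mem ha1 hb1) hc2
  · change a * b / (sa * sb * sc) ∈ S
    have : a * b / (sa * sb * sc) = (a / sa) * (b / sb) * sc⁻¹ := by
      rw [div_eq_mul_inv, div_eq_mul_inv, div_eq_mul_inv, mul_inv, mul_inv]; ring
    rw [this]; exact mul_mem (mul_mem ha2 hb2) hc1
  · change b * c / (sa * sb * sc) ∈ S
    have : b * c / (sa * sb * sc) = sa⁻¹ * (b / sb) * (c / sc) := by
      rw [div_eq_mul_inv, div_eq_mul_inv, div_eq_mul_inv, mul_inv, mul_inv]; ring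
    rw [this]; exact mul_mem (mul_mem ha1 hb2) hc2
  · change a * c / (sa * sb * sc) ∈ S
    have : a * c / (sa * sb * sc) = (a / sa) * sb⁻¹ * (c / sc) := by
      rw [div_eq_mul_inv, div_eq_mul_inv, div_eq_mul_inv, mul_inv, mul_inv]; ring
    rw [this]; exact mul_mem (mul_mem ha2 hb1) hc2
  · change a * b * c / (sa * sb * sc) ∈ S
    have : a * b * c / (sa * sb * sc) = (a / sa) * (b / sb) * (c / sc) := by
      rw [div_eq_mul_inv, div_eq_mul_inv, div_eq_mul_inv, div_eq_mul_inv, mul_inv, mul_inv]; ring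
    rw [this]; exact mul_mem (mul_mem ha2 hb2) hc2

/-- One of the seven monomials divides the others, and `a, b, c` or their inverses are regular. -/
def Good (S : Subalgebra ℂ K) (a b c : K) : Prop :=
  (∃ k, ∀ j, mon a b c j / mon a b c k ∈ S) ∧ (∃ s, (s = 1 ∨ s = a) ∧ Fac S a s) ∧
    (∃ s, (s = 1 ∨ s = b) ∧ Fac S b s) ∧ (∃ s, (s = 1 ∨ s = c) ∧ Fac S c s)

theorem good_of {S : Subalgebra ℂ K} {a b c sa sb sc : K} (ha : Fac S a sa) (hb : Fac S b sb)
    (hc : Fac S c sc) (ha' : sa = 1 ∨ sa = a) (hb' : sb = 1 ∨ sb = b) (hc' : sc = 1 ∨ sc = c)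
    (k : Fin 7) (hk : mon a b c k = sa * sb * sc) : Good S a b c :=
  ⟨⟨k, fun j => by rw [hk]; exact mon_fac ha hb hc j⟩, ⟨sa, ha', ha⟩, ⟨sb, hb', hb⟩, ⟨sc, hc', hc⟩⟩

theorem good_all (i : Fin 10) : Good ((Xd d h).R i) d.a d.b d.c := by
  have ha0 := d.a_ne
  have hb0 := d.b_ne
  have hc0 := d.c_ne
  -- the three charts over the origin
  have key : ∀ {S : Subalgebra ℂ K} {a b c : K}, a ≠ 0 → b ≠ 0 → c ≠ 0 → a ∈ S → b / a ∈ S →
      c / a ∈ S → (∀ j, mon a b c j / a ∈ S) ∧ b ∈ S ∧ c ∈ S := by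
    intro S a b c ha hb hc h1 h2 h3
    have hb1 : b ∈ S := by
      have : b = a * (b / a) := by field_simp
      rw [this]; exact mul_mem h1 h2
    have hc1 : c ∈ S := by
      have : c = a * (c / a) := by field_simp
      rw [this]; exact mul_mem h1 h3
    refine ⟨fun j => ?_, hb1, hc1⟩
    fin_cases j
    · change a / a ∈ S
      rw [div_self ha]; exact one_mem _
    · exact h2
    · exact h3
    · change a * b / a ∈ S
      have : a * b / a = b := by field_simp
      rw [this]; exact hb1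
    · change b * c / a ∈ S
      have : b * c / a = (b / a) * c := by field_simp
      rw [this]; exact mul_mem h2 hc1
    · change a * c / a ∈ S
      have : a * c / a = c := by field_simp
      rw [this]; exact hc1
    · change a * b * c / a ∈ S
      have : a * b * c / a = b * c := by field_simp
      rw [this]; exact mul_mem hb1 hc1
  have r := ratio d h
  fin_cases i
  · -- a
    have h1 : d.a ∈ (Xd d h).R (0 : Fin 10) := by
      have := r 0 3
      have e : xi d 3 / xi d 0 = d.a := by change d.a ^ 2 / d.a = d.a; field_simp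
      rwa [e] at this
    have h2 : d.b / d.a ∈ (Xd d h).R (0 : Fin 10) := r 0 1
    have h3 : d.c / d.a ∈ (Xd d h).R (0 : Fin 10) := r 0 2
    obtain ⟨h4, h5, h6⟩ := key ha0 hb0 hc0 h1 h2 h3
    exact ⟨⟨0, h4⟩, ⟨1, Or.inl rfl, fac_one h1⟩, ⟨1, Or.inl rfl, fac_one h5⟩,
      ⟨1, Or.inl rfl, fac_one h6⟩⟩
  · -- b
    have h1 : d.b ∈ (Xd d h).R (1 : Fin 10) := by
      have := r 1 4
      have e : xi d 4 / xi d 1 = d.b := by change d.b ^ 2 / d.b = d.b; field_simp
      rwa [e] at this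
    have h2 : d.a / d.b ∈ (Xd d h).R (1 : Fin 10) := r 1 0
    have h3 : d.c / d.b ∈ (Xd d h).R (1 : Fin 10) := r 1 2
    obtain ⟨h4, h5, h6⟩ := key hb0 ha0 hc0 h1 h2 h3
    refine ⟨⟨1, fun j => ?_⟩, ⟨1, Or.inl rfl, fac_one h5⟩, ⟨1, Or.inl rfl, fac_one h1⟩,
      ⟨1, Or.inl rfl, fac_one h6⟩⟩
    change mon d.a d.b d.c j / d.b ∈ _
    have hp : ∃ j', mon d.a d.b d.c j = mon d.b d.a d.c j' := by
      fin_cases j
      · exact ⟨1, rfl⟩
      · exact ⟨0, rfl⟩
      · exact ⟨2, rfl⟩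
      · exact ⟨3, mul_comm _ _⟩
      · exact ⟨5, rfl⟩
      · exact ⟨4, rfl⟩
      · exact ⟨6, by change d.a * d.b * d.c = d.b * d.a * d.c; ring⟩
    obtain ⟨j', hj'⟩ := hp
    rw [hj']
    exact h4 j'
  · -- c
    have h1 : d.c ∈ (Xd d h).R (2 : Fin 10) := by
      have := r 2 5
      have e : xi d 5 / xi d 2 = d.c := by change d.c ^ 2 / d.c = d.c; field_simp
      rwa [e] at this
    have h2 : d.a / d.c ∈ (Xd d h).R (2 : Fin 10) := r 2 0
    have h3 : d.b / d.c ∈ (Xd d h).R (2 : Fin 10) := r 2 1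
    obtain ⟨h4, h5, h6⟩ := key hc0 ha0 hb0 h1 h2 h3
    refine ⟨⟨2, fun j => ?_⟩, ⟨1, Or.inl rfl, fac_one h5⟩, ⟨1, Or.inl rfl, fac_one h6⟩,
      ⟨1, Or.inl rfl, fac_one h1⟩⟩
    change mon d.a d.b d.c j / d.c ∈ _
    have hp : ∃ j', mon d.a d.b d.c j = mon d.c d.a d.b j' := by
      fin_cases j
      · exact ⟨1, rfl⟩
      · exact ⟨2, rfl⟩
      · exact ⟨0, rfl⟩
      · exact ⟨4, rfl⟩
      · exact ⟨5, by change d.b * d.c = d.c * d.b; ring⟩
      · exact ⟨3, by change d.a * d.c = d.c * d.a; ring⟩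
      · exact ⟨6, by change d.a * d.b * d.c = d.c * d.a * d.b; ring⟩
    obtain ⟨j', hj'⟩ := hp
    rw [hj']
    exact h4 j'
  · -- a^2
    have h1 : d.a⁻¹ ∈ (Xd d h).R (3 : Fin 10) := by
      have := r 3 0
      have e : xi d 0 / xi d 3 = d.a⁻¹ := by change d.a / d.a ^ 2 = d.a⁻¹; field_simp
      rwa [e] at this
    have h2 : d.b ∈ (Xd d h).R (3 : Fin 10) := by
      apply sq_mem
      have := r 3 6
      have e : xi d 6 / xi d 3 = d.b ^ 2 := by
        change d.a ^ 2 * d.b ^ 2 / d.a ^ 2 = d.b ^ 2; field_simp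
      rwa [e] at this
    have h3 : d.c ∈ (Xd d h).R (3 : Fin 10) := by
      apply sq_mem
      have := r 3 8
      have e : xi d 8 / xi d 3 = d.c ^ 2 := by
        change d.a ^ 2 * d.c ^ 2 / d.a ^ 2 = d.c ^ 2; field_simp
      rwa [e] at this
    exact good_of (fac_inv ha0 h1) (fac_one h2) (fac_one h3) (Or.inr rfl) (Or.inl rfl)
      (Or.inl rfl) 0 (by change d.a = d.a * 1 * 1; ring)
  · -- b^2
    have h1 : d.b⁻¹ ∈ (Xd d h).R (4 : Fin 10) := by
      have := r 4 1
      have e : xi d 1 / xi d 4 = d.b⁻¹ := by change d.b / d.b ^ 2 = d.b⁻¹; field_simp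
      rwa [e] at this
    have h2 : d.a ∈ (Xd d h).R (4 : Fin 10) := by
      apply sq_mem
      have := r 4 6
      have e : xi d 6 / xi d 4 = d.a ^ 2 := by
        change d.a ^ 2 * d.b ^ 2 / d.b ^ 2 = d.a ^ 2; field_simp
      rwa [e] at this
    have h3 : d.c ∈ (Xd d h).R (4 : Fin 10) := by
      apply sq_mem
      have := r 4 7
      have e : xi d 7 / xi d 4 = d.c ^ 2 := by
        change d.b ^ 2 * d.c ^ 2 / d.b ^ 2 = d.c ^ 2; field_simp
      rwa [e] at this
    exact good_of (fac_one h2) (fac_inv hb0 h1) (fac_one h3) (Or.inl rfl) (Or.inr rfl)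
      (Or.inl rfl) 1 (by change d.b = 1 * d.b * 1; ring)
  · -- c^2
    have h1 : d.c⁻¹ ∈ (Xd d h).R (5 : Fin 10) := by
      have := r 5 2
      have e : xi d 2 / xi d 5 = d.c⁻¹ := by change d.c / d.c ^ 2 = d.c⁻¹; field_simp
      rwa [e] at this
    have h2 : d.a ∈ (Xd d h).R (5 : Fin 10) := by
      apply sq_mem
      have := r 5 8
      have e : xi d 8 / xi d 5 = d.a ^ 2 := by
        change d.a ^ 2 * d.c ^ 2 / d.c ^ 2 = d.a ^ 2; field_simp
      rwa [e] at this
    have h3 : d.b ∈ (Xd d h).R (5 : Fin 10) := by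
      apply sq_mem
      have := r 5 7
      have e : xi d 7 / xi d 5 = d.b ^ 2 := by
        change d.b ^ 2 * d.c ^ 2 / d.c ^ 2 = d.b ^ 2; field_simp
      rwa [e] at this
    exact good_of (fac_one h2) (fac_one h3) (fac_inv hc0 h1) (Or.inl rfl) (Or.inl rfl)
      (Or.inr rfl) 2 (by change d.c = 1 * 1 * d.c; ring)
  · -- a^2 b^2
    have h1 : d.a⁻¹ ∈ (Xd d h).R (6 : Fin 10) := by
      apply sq_mem
      have := r 6 4
      have e : xi d 4 / xi d 6 = d.a⁻¹ ^ 2 := by
        change d.b ^ 2 / (d.a ^ 2 * d.b ^ 2) = d.a⁻¹ ^ 2; field_simp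
      rwa [e] at this
    have h2 : d.b⁻¹ ∈ (Xd d h).R (6 : Fin 10) := by
      apply sq_mem
      have := r 6 3
      have e : xi d 3 / xi d 6 = d.b⁻¹ ^ 2 := by
        change d.a ^ 2 / (d.a ^ 2 * d.b ^ 2) = d.b⁻¹ ^ 2; field_simp
      rwa [e] at this
    have h3 : d.c ∈ (Xd d h).R (6 : Fin 10) := by
      apply sq_mem
      have := r 6 9
      have e : xi d 9 / xi d 6 = d.c ^ 2 := by
        change d.a ^ 2 * d.b ^ 2 * d.c ^ 2 / (d.a ^ 2 * d.b ^ 2) = d.c ^ 2; field_simp
      rwa [e] at this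
    exact good_of (fac_inv ha0 h1) (fac_inv hb0 h2) (fac_one h3) (Or.inr rfl) (Or.inr rfl)
      (Or.inl rfl) 3 (by change d.a * d.b = d.a * d.b * 1; ring)
  · -- b^2 c^2
    have h1 : d.b⁻¹ ∈ (Xd d h).R (7 : Fin 10) := by
      apply sq_mem
      have := r 7 5
      have e : xi d 5 / xi d 7 = d.b⁻¹ ^ 2 := by
        change d.c ^ 2 / (d.b ^ 2 * d.c ^ 2) = d.b⁻¹ ^ 2; field_simp
      rwa [e] at this
    have h2 : d.c⁻¹ ∈ (Xd d h).R (7 : Fin 10) := by
      apply sq_mem
      have := r 7 4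
      have e : xi d 4 / xi d 7 = d.c⁻¹ ^ 2 := by
        change d.b ^ 2 / (d.b ^ 2 * d.c ^ 2) = d.c⁻¹ ^ 2; field_simp
      rwa [e] at this
    have h3 : d.a ∈ (Xd d h).R (7 : Fin 10) := by
      apply sq_mem
      have := r 7 9
      have e : xi d 9 / xi d 7 = d.a ^ 2 := by
        change d.a ^ 2 * d.b ^ 2 * d.c ^ 2 / (d.b ^ 2 * d.c ^ 2) = d.a ^ 2; field_simp
      rwa [e] at this
    exact good_of (fac_one h3) (fac_inv hb0 h1) (fac_inv hc0 h2) (Or.inl rfl) (Or.inr rfl)
      (Or.inr rfl) 4 (by change d.b * d.c = 1 * d.b * d.c; ring)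
  · -- a^2 c^2
    have h1 : d.a⁻¹ ∈ (Xd d h).R (8 : Fin 10) := by
      apply sq_mem
      have := r 8 5
      have e : xi d 5 / xi d 8 = d.a⁻¹ ^ 2 := by
        change d.c ^ 2 / (d.a ^ 2 * d.c ^ 2) = d.a⁻¹ ^ 2; field_simp
      rwa [e] at this
    have h2 : d.c⁻¹ ∈ (Xd d h).R (8 : Fin 10) := by
      apply sq_mem
      have := r 8 3
      have e : xi d 3 / xi d 8 = d.c⁻¹ ^ 2 := by
        change d.a ^ 2 / (d.a ^ 2 * d.c ^ 2) = d.c⁻¹ ^ 2; field_simp
      rwa [e] at this
    have h3 : d.b ∈ (Xd d h).R (8 : Fin 10) := by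
      apply sq_mem
      have := r 8 9
      have e : xi d 9 / xi d 8 = d.b ^ 2 := by
        change d.a ^ 2 * d.b ^ 2 * d.c ^ 2 / (d.a ^ 2 * d.c ^ 2) = d.b ^ 2; field_simp
      rwa [e] at this
    exact good_of (fac_inv ha0 h1) (fac_one h3) (fac_inv hc0 h2) (Or.inr rfl) (Or.inl rfl)
      (Or.inr rfl) 5 (by change d.a * d.c = d.a * 1 * d.c; ring)
  · -- a^2 b^2 c^2
    have h1 : d.a⁻¹ ∈ (Xd d h).R (9 : Fin 10) := by
      apply sq_mem
      have := r 9 7
      have e : xi d 7 / xi d 9 = d.a⁻¹ ^ 2 := by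
        change d.b ^ 2 * d.c ^ 2 / (d.a ^ 2 * d.b ^ 2 * d.c ^ 2) = d.a⁻¹ ^ 2; field_simp
      rwa [e] at this
    have h2 : d.b⁻¹ ∈ (Xd d h).R (9 : Fin 10) := by
      apply sq_mem
      have := r 9 8
      have e : xi d 8 / xi d 9 = d.b⁻¹ ^ 2 := by
        change d.a ^ 2 * d.c ^ 2 / (d.a ^ 2 * d.b ^ 2 * d.c ^ 2) = d.b⁻¹ ^ 2; field_simp
      rwa [e] at this
    have h3 : d.c⁻¹ ∈ (Xd d h).R (9 : Fin 10) := by
      apply sq_mem
      have := r 9 6
      have e : xi d 6 / xi d 9 = d.c⁻¹ ^ 2 := by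
        change d.a ^ 2 * d.b ^ 2 / (d.a ^ 2 * d.b ^ 2 * d.c ^ 2) = d.c⁻¹ ^ 2; field_simp
      rwa [e] at this
    exact good_of (fac_inv ha0 h1) (fac_inv hb0 h2) (fac_inv hc0 h3) (Or.inr rfl) (Or.inr rfl)
      (Or.inr rfl) 6 (by change d.a * d.b * d.c = d.a * d.b * d.c; ring)

end free

theorem free_of {X : Model K} {f : K} (hf : f ≠ 0)
    (H : ∀ i, ∃ s, (s = 1 ∨ s = f) ∧ Fac (X.R i) f s) : IsFree X (m := 1) ![1, f] := by
  constructor
  · intro j
    fin_cases j
    · exact one_ne_zero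
    · exact hf
  · intro x
    obtain ⟨s, hs, h1, h2⟩ := H x.i
    rcases hs with rfl | rfl
    · refine ⟨0, fun j => ?_⟩
      fin_cases j
      · change x.Mem (1 / 1)
        rw [div_one]
        exact x.mem_of_R (one_mem _)
      · change x.Mem (f / 1)
        exact x.mem_of_R h2
    · refine ⟨1, fun j => ?_⟩
      fin_cases j
      · change x.Mem (1 / s)
        rw [one_div]
        exact x.mem_of_R h1
      · change x.Mem (s / s)
        exact x.mem_of_R h2

theorem free_a (d : Dat K) (h : XiAlg d) : IsFree (Xd d h) (m := 1) ![1, d.a] :=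
  free_of d.a_ne fun i => (good_all d h i).2.1

theorem free_b (d : Dat K) (h : XiAlg d) : IsFree (Xd d h) (m := 1) ![1, d.b] :=
  free_of d.b_ne fun i => (good_all d h i).2.2.1

theorem free_c (d : Dat K) (h : XiAlg d) : IsFree (Xd d h) (m := 1) ![1, d.c] :=
  free_of d.c_ne fun i => (good_all d h i).2.2.2

theorem free_seven (d : Dat K) (h : XiAlg d) : IsFree (Xd d h) (m := 6)
    ![d.a, d.b, d.c, d.a * d.b, d.b * d.c, d.a * d.c, d.a * d.b * d.c] := by
  constructor
  · have ha := d.a_ne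
    have hb := d.b_ne
    have hc := d.c_ne
    intro j
    fin_cases j <;> simp [ha, hb, hc]
  · intro x
    obtain ⟨k, hk⟩ := (good_all d h x.i).1
    exact ⟨k, fun j => x.mem_of_R (hk j)⟩

end Pool.Agent.TH551.C8_XM1
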