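import Pool.Agent.TH672.Sem

/-!
# Completeness for official sentences, renaming of bound variables, meaning of numerals
-/

set_option autoImplicit false

namespace Pool.Agent.TH672

open Form

namespace J213

/-- the back translation -/
def un : Fm Empty → Form := tr (fun e : Empty => e.elim)

theorem un_free {x : ℕ} : ∀ {φ : Fm Empty}, (un φ).Free x ↔ φ.Free x := by
  intro φ
  induction φ with
  | op i a b c d => exact i.elim
  | imp φ ψ ih ih' =>
    simp only [un] at ih ih'
    simp [un, tr, Form.Free, Fm.Free, ih, ih']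
  | all u φ ih =>
    simp only [un] at ih
    simp [un, tr, Form.Free, Fm.Free, ih]
  | _ => simp [un, tr, Form.Free, Fm.Free]

theorem un_subst (x y : ℕ) : ∀ φ : Fm Empty, un (φ.subst x y) = (un φ).subst x y := by
  intro φ
  induction φ with
  | op i a b c d => exact i.elim
  | imp φ ψ ih ih' =>
    simp only [un] at ih ih'
    simp [un, tr, Form.subst, Fm.subst, ih, ih']
  | all u φ ih =>
    simp only [un] at ih
    simp only [un, tr, Form.subst, Fm.subst]
    split_ifs
    · rfl
    · simp [tr, ih]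
  | _ => simp [un, tr, Form.subst, Fm.subst]

theorem un_freeFor {x y : ℕ} : ∀ {φ : Fm Empty}, φ.FreeFor y x → (un φ).FreeFor y x := by
  intro φ
  induction φ with
  | op i a b c d => exact i.elim
  | imp φ ψ ih ih' => intro h; exact ⟨ih h.1, ih' h.2⟩
  | all u φ ih =>
    intro h
    simp only [Fm.FreeFor] at h
    simp only [un, tr, Form.FreeFor]
    rcases h with h | h | h
    · exact Or.inl h
    · exact Or.inr (Or.inl (fun hf => h (un_free.1 hf)))
    · exact Or.inr (Or.inr ⟨h.1, ih h.2⟩)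
  | _ => intro _; trivial

theorem un_log {φ : Fm Empty} (h : LogK φ) : LogAx (un φ) := by
  cases h with
  | k φ ψ => exact LogAx.k _ _
  | s φ ψ χ => exact LogAx.s _ _ _
  | dn φ => exact LogAx.dn _
  | inst x y φ h =>
    have h1 : un ((Fm.all x φ).imp (φ.subst x y)) = (Form.all x (un φ)).imp ((un φ).subst x y) := by
      rw [← un_subst]; rfl
    rw [h1]
    exact LogAx.inst _ _ _ (un_freeFor h)
  | dist x φ ψ h => exact LogAx.dist _ _ _ (fun h' => h (un_free.1 h'))
  | refl x => exact LogAx.refl _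
  | repl x y φ ψ h =>
    cases h with
    | eq h1 h2 => exact LogAx.repl _ _ _ _ (.eq h1 h2)
    | zero h1 => exact LogAx.repl _ _ _ _ (.zero h1)
    | succ h1 h2 => exact LogAx.repl _ _ _ _ (.succ h1 h2)
    | add h1 h2 h3 => exact LogAx.repl _ _ _ _ (.add h1 h2 h3)
    | mul h1 h2 h3 => exact LogAx.repl _ _ _ _ (.mul h1 h2 h3)
    | @op i a b c d a' b' c' d' h1 h2 h3 h4 => exact i.elim

theorem un_pv {T : List Form} {χ : Fm Empty} (h : Pv (fun ψ => ψ ∈ T.map emb) χ) :
    ∃ K, ∀ Γ C : List Form, (∀ ψ ∈ T, ψ ∈ C) → Ext Γ C K (un χ) := by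
  induction h with
  | ax h =>
    obtain ⟨ψ, h1, rfl⟩ := List.mem_map.1 h
    refine ⟨0, fun Γ C hC => ?_⟩
    rw [un, tr_emb]
    exact Ext.hyp (hC _ h1)
  | log h => exact ⟨_, fun Γ C _ => Ext.log (un_log h)⟩
  | mp _ _ ih ih' =>
    obtain ⟨K, hK⟩ := ih
    obtain ⟨L, hL⟩ := ih'
    exact ⟨_, fun Γ C hC => Ext.mp (hK Γ C hC) (hL Γ C hC)⟩
  | gen x _ ih =>
    obtain ⟨K, hK⟩ := ih
    exact ⟨_, fun Γ C hC => Ext.gen x (hK Γ C hC)⟩

/-- renaming of the variables of an official formula -/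
def rnF (f : ℕ → ℕ) (φ : Form) : Form := un (rn f (emb φ))

theorem emb_un {κ : Type} (f : ℕ → ℕ) : ∀ φ : Form, (emb (rnF f φ) : Fm κ) = rn f (emb φ) := by
  intro φ
  induction φ with
  | imp φ ψ ih ih' =>
    simp only [rnF, un] at ih ih'
    simp [rnF, un, rn, emb, tr, ih, ih']
  | all u φ ih =>
    simp only [rnF, un] at ih
    simp [rnF, un, rn, emb, tr, ih]
  | _ => simp [rnF, un, rn, emb, tr]

theorem tr_rn {κ : Type} (ι : κ → Form) (f : ℕ → ℕ) (φ : Form) :
    tr ι (rn f (emb φ)) = rnF f φ := by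
  rw [← emb_un, tr_emb]

/-- instantiation with the same variable -/
theorem ext_all_self {Γ C : List Form} {a x : ℕ} {φ : Form} (h : Ext Γ C a (Form.all x φ)) :
    Ext Γ C (((Form.all x φ).imp φ).len + a + φ.len) φ := by
  have h1 : LogAx ((Form.all x φ).imp φ) := by
    have h2 := LogAx.inst x x φ (freeFor_self x φ)
    rwa [subst_self] at h2
  exact (Ext.log h1).mp h

theorem ex_all_self {x : ℕ} {φ : Form} (h : ∃ K, ∀ Γ C : List Form, Ext Γ C K (Form.all x φ)) :
    ∃ K, ∀ Γ C : List Form, Ext Γ C K φ := by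
  obtain ⟨K, hK⟩ := h
  exact ⟨_, fun Γ C => ext_all_self (hK Γ C)⟩

theorem digit_str (x : ℕ) (b : Bool) (φ : Form) : (digit x b φ).str = tmpl x b ++ φ.str := by
  obtain ⟨pre, hpre⟩ : ∃ pre : List Bool, ∀ ψ : Form, (digit x b ψ).str = pre ++ ψ.str := by
    cases b
    · refine ⟨[true, true, true] ++ varStr 0 ++ ([true, true, false] ++ (Form.add x x 0).str ++
        ([true, true, true] ++ varStr x ++ ([true, true, false] ++ (Form.succ 0 x).str))), ?_⟩
      intro ψ
      simp [digit, Form.str]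
    · refine ⟨[true, true, true] ++ varStr 0 ++ ([true, true, false] ++ (Form.add x x 0).str ++
        ([true, true, true] ++ varStr 1 ++ ([true, true, false] ++ (Form.succ 0 1).str ++
        ([true, true, true] ++ varStr x ++ ([true, true, false] ++ (Form.succ 1 x).str))))), ?_⟩
      intro ψ
      simp [digit, Form.str]
  rw [tmpl, hpre, hpre]
  have h1 : Form.bot.str = [false, false, false] := rfl
  rw [h1]
  congr 1
  have h2 : pre ++ [false, false, false] = ((pre ++ [false]) ++ [false]) ++ [false] := by simp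
  rw [h2, List.dropLast_concat, List.dropLast_concat, List.dropLast_concat]

theorem foldr_str (x : ℕ) (φ : Form) : ∀ σ : List Bool,
    (σ.foldr (digit x) φ).str = σ.flatMap (tmpl x) ++ φ.str
  | [] => by simp
  | b :: σ => by
    rw [List.foldr_cons, digit_str, foldr_str x φ σ, List.flatMap_cons, List.append_assoc]

theorem foldr_free (x : ℕ) (φ : Form) {y : ℕ} (hy : y ≠ x) : ∀ σ : List Bool,
    (σ.foldr (digit x) φ).Free y → φ.Free y
  | [], h => h
  | b :: σ, h => by
    apply foldr_free x φ hy σ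
    rw [List.foldr_cons] at h
    generalize σ.foldr (digit x) φ = ψ at h ⊢
    cases b
    · simp only [digit, Form.Free, Bool.false_eq_true, if_false] at h
      tauto
    · simp only [digit, Form.Free, if_true] at h
      tauto

theorem sat_digit {κ : Type} (S : Str κ) (x : ℕ) (hx : 2 ≤ x) (b : Bool) (ψ : Form)
    (v : ℕ → S.M) (R : S.M → Prop)
    (hR : ∀ a c e, Fm.Sat S (emb ψ) (upd (upd (upd v 0 a) 1 c) x e) ↔ R e)
    (hR' : ∀ a e, Fm.Sat S (emb ψ) (upd (upd v 0 a) x e) ↔ R e) :
    Fm.Sat S (emb (digit x b ψ) : Fm κ) v ↔ ∀ e, App S b (v x) e → R e := by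
  have h0 : x ≠ 0 := by omega
  have h1 : x ≠ 1 := by omega
  have h01 : (0 : ℕ) ≠ 1 := by decide
  cases b
  · simp only [digit, Bool.false_eq_true, if_false, emb, Fm.sat_all, Fm.sat_imp, Fm.sat_add,
      Fm.sat_succ, App, upd_same]
    simp only [upd_ne _ _ h0, upd_ne _ _ (Ne.symm h0), upd_same]
    constructor
    · rintro h e ⟨u, hu, hs⟩
      exact (hR' u e).1 (h u hu e hs)
    · intro h u hu e hs
      exact (hR' u e).2 (h e ⟨u, hu, hs⟩)
  · simp only [digit, if_true, emb, Fm.sat_all, Fm.sat_imp, Fm.sat_add,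
      Fm.sat_succ, App, upd_same]
    simp only [upd_ne _ _ h0, upd_ne _ _ (Ne.symm h1), upd_ne _ _ h01, upd_same]
    constructor
    · rintro h e ⟨u, w, hu, hw, hs⟩
      exact (hR u w e).1 (h u hu w hw e hs)
    · intro h u hu w hw e hs
      exact (hR u w e).2 (h e ⟨u, w, hu, hw, hs⟩)

theorem sat_foldr {κ : Type} (S : Str κ) (x : ℕ) (hx : 2 ≤ x) (φ : Form) (h0 : ¬ φ.Free 0)
    (h1 : ¬ φ.Free 1) : ∀ (σ : List Bool) (v : ℕ → S.M),
    Fm.Sat S (emb (σ.foldr (digit x) φ) : Fm κ) v ↔
      ∀ e, AppL S σ (v x) e → Fm.Sat S (emb φ) (upd v x e)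
  | [], v => by
    simp only [List.foldr_nil, AppL]
    constructor
    · rintro h e rfl
      rwa [upd_self]
    · intro h
      have := h _ rfl
      rwa [upd_self] at this
  | b :: σ, v => by
    have key : ∀ w : ℕ → S.M, (∀ z, z ≠ 0 → z ≠ 1 → z ≠ x → w z = v z) →
        (Fm.Sat S (emb (σ.foldr (digit x) φ) : Fm κ) w ↔
          ∀ e, AppL S σ (w x) e → Fm.Sat S (emb φ) (upd v x e)) := by
      intro w hw
      rw [sat_foldr S x hx φ h0 h1 σ w]
      refine forall_congr' fun e => imp_congr_right fun _ => ?_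
      refine sat_congr fun z hz => ?_
      rw [free_emb] at hz
      unfold upd
      split_ifs with hzx
      · rfl
      · exact hw z (fun e => h0 (e ▸ hz)) (fun e => h1 (e ▸ hz)) hzx
    rw [List.foldr_cons, sat_digit S x hx b _ v
      (fun c => ∀ e, AppL S σ c e → Fm.Sat S (emb φ) (upd v x e))]
    · simp only [AppL]
      constructor
      · rintro h e ⟨t, ht, hte⟩
        exact h t ht e hte
      · intro h t ht e hte
        exact h e ⟨t, ht, hte⟩
    · intro a c e
      rw [key]
      · rw [upd_same]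
      · intro z hz0 hz1 hzx
        rw [upd_ne _ _ hzx, upd_ne _ _ hz1, upd_ne _ _ hz0]
    · intro a e
      rw [key]
      · rw [upd_same]
      · intro z hz0 hz1 hzx
        rw [upd_ne _ _ hzx, upd_ne _ _ hz0]

end J213

open J213

/-- consequences of sentences without additional symbols can be derived -/
theorem form_step (hc : Complete Empty) (T : List Form) (φ : Form) (hT : ∀ ψ ∈ T, ψ.Closed)
    (hφ : φ.Closed)
    (h : ∀ (S : Str Empty) (v : ℕ → S.M), (∀ ψ ∈ T, Fm.Sat S (emb ψ) v) → Fm.Sat S (emb φ) v) :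
    ∃ K, ∀ Γ C : List Form, (∀ ψ ∈ T, ψ ∈ C) → Ext Γ C K φ := by
  have h1 : Pv (fun ψ => ψ ∈ T.map emb) (emb φ : Fm Empty) := by
    refine hc _ _ ?_ ?_ ?_
    · intro ψ hψ
      obtain ⟨χ, h1, rfl⟩ := List.mem_map.1 hψ
      exact fun x hx => hT _ h1 x (free_emb.1 hx)
    · exact fun x hx => hφ x (free_emb.1 hx)
    · intro S v hv
      exact h S v fun ψ hψ => hv _ (List.mem_map_of_mem hψ)
  obtain ⟨K, hK⟩ := un_pv h1
  refine ⟨K, fun Γ C hC => ?_⟩
  have h2 := hK Γ C hC
  rwa [un, tr_emb] at h2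

/-- the version with renamed bound variables can be derived -/
theorem rename_step (hc : Complete Empty) (φ : Form) (hφ : φ.Closed) :
    ∃ K, ∀ (ι : Sy → Form) (Γ C : List Form), φ ∈ C → Ext Γ C K (tr ι (emb' φ)) := by
  have hcl : (rnF rf φ).Closed := by
    intro x hx
    have h1 : (emb (rnF rf φ) : Fm Empty).Free x := free_emb.2 hx
    rw [emb_un] at h1
    exact rn_closed (fun y hy => hφ y (free_emb.1 hy)) x h1
  obtain ⟨K, hK⟩ := form_step hc [φ] (rnF rf φ) (by simpa using hφ) hcl (by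
    intro S v hv
    rw [emb_un, sat_rn rf_inj]
    refine (sat_congr ?_).1 (hv φ (by simp))
    intro x hx
    exact absurd (free_emb.1 hx) (hφ x))
  refine ⟨K, fun ι Γ C hC => ?_⟩
  rw [emb', tr_rn]
  exact hK Γ C (by simpa using hC)

/-- the version with renamed bound variables implies the formula -/
theorem rename_back (hc : Complete Empty) (φ : Form) (hφ : ∀ x, φ.Free x → x < 5) :
    ∃ K, ∀ (ι : Sy → Form) (Γ C : List Form), Ext Γ C K ((tr ι (emb' φ)).imp φ) := by
  have hfree : ∀ x, (rnF rf φ).Free x → x < 5 := by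
    intro x hx
    have h1 : (emb (rnF rf φ) : Fm Empty).Free x := free_emb.2 hx
    rw [emb_un] at h1
    obtain ⟨y, h2, rfl⟩ := rn_free h1
    have h3 := hφ y (free_emb.1 h2)
    simp only [rf, if_pos h3]
    exact h3
  obtain ⟨K, hK⟩ := form_step hc []
    (all 0 (all 1 (all 2 (all 3 (all 4 ((rnF rf φ).imp φ)))))) (by simp) (by
      intro x hx
      simp only [Form.Free] at hx
      obtain ⟨h0, h1, h2, h3, h4, h5⟩ := hx
      have h6 : x < 5 := by
        rcases h5 with h5 | h5
        · exact hfree x h5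
        · exact hφ x h5
      omega) (by
      intro S v _
      simp only [emb, Fm.sat_all, Fm.sat_imp]
      intro a0 a1 a2 a3 a4
      rw [emb_un, sat_rn rf_inj]
      refine (sat_congr ?_).1
      intro x hx
      have h3 := hφ x (free_emb.1 hx)
      simp only [Function.comp, rf, if_pos h3])
  obtain ⟨L, hL⟩ := ex_all_self (ex_all_self (ex_all_self (ex_all_self (ex_all_self
    ⟨K, fun Γ C => hK Γ C (by simp)⟩))))
  refine ⟨L, fun ι Γ C => ?_⟩
  rw [emb', tr_rn]
  exact hL Γ C

/-- the meaning of the formulas with numerals (in arbitrary structures) -/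
theorem sat_inst {κ : Type} (S : Str κ) (x n : ℕ) (hx : 2 ≤ x) (φ : Form) (h0 : ¬ φ.Free 0)
    (h1 : ¬ φ.Free 1) (v : ℕ → S.M) : Fm.Sat S (emb (inst x n φ) : Fm κ) v ↔
      ∀ e, StrV S (digits n) e → Fm.Sat S (emb φ) (upd v x e) := by
  simp only [inst, emb, Fm.sat_all, Fm.sat_imp, Fm.sat_zero, upd_same,
    sat_foldr S x hx φ h0 h1, upd_upd, StrV]
  constructor
  · rintro h e ⟨z, hz, hze⟩
    exact h z hz e hze
  · intro h z hz e hze
    exact h e ⟨z, hz, hze⟩

/-- the free variables of an instance -/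
theorem free_inst (x n : ℕ) (hx : 2 ≤ x) (φ : Form) (y : ℕ) (hy : (inst x n φ).Free y) :
    y ≠ x ∧ φ.Free y := by
  have _ := hx
  simp only [inst, Form.Free] at hy
  obtain ⟨h1, h2 | h2⟩ := hy
  · exact absurd h2 h1
  · exact ⟨h1, foldr_free x φ h1 _ h2⟩

/-- the string of an instance -/
theorem str_inst (x n : ℕ) (φ : Form) :
    (inst x n φ).str = hd x ++ (digits n).flatMap (tmpl x) ++ φ.str := by
  simp only [inst, Form.str, foldr_str, hd, List.append_assoc]

end Pool.Agent.TH672
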