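import Pool.Agent.TH981.LO.Bas

/-!
# Loop O(1) uniqueness: local expectations depend little on far away edges (job 463)
-/

set_option autoImplicit false

open Pool.Agent.TH981.LO
open scoped BigOperators symmDiff MeasureTheory

namespace Pool.Agent.TH551.J463

variable {d : ℕ}

/-- the numerator, divided by the partition function of the outer edges -/
noncomputable def NN (d m : ℕ) (x : ℝ) (S₀ F : Finset (Ed d)) (f : Finset (Ed d) → ℝ) : ℝ :=
  ∑ ζ ∈ S₀.powerset, x ^ ζ.card * f ζ * CC d x (F \ EB d m) ((lat d).bd ζ)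

theorem LL_eq {m : ℕ} {x : ℝ} (hx0 : 0 < x) {S₀ D : Finset (Ed d)} (hS : S₀ = D ∩ EB d m)
    {f : Finset (Ed d) → ℝ} (hf : LocS (EB d m) f) :
    LL d x D 0 f = ZZ d x (D \ EB d m) 0 * NN d m x S₀ D f := by
  classical
  have hD : D = S₀ ∪ (D \ EB d m) := by
    rw [hS, Finset.union_comm]
    exact (Finset.sdiff_union_inter D (EB d m)).symm
  have hdis : Disjoint S₀ (D \ EB d m) := by
    rw [hS]
    exact (Finset.disjoint_sdiff_inter D (EB d m)).symm
  have h1 : LL d x D 0 f = LL d x (S₀ ∪ (D \ EB d m)) 0 f := by rw [← hD]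
  rw [h1]
  change (lat d).L (fun _ => x) (S₀ ∪ (D \ EB d m)) 0 f = _
  rw [(lat d).L_union _ hdis]
  unfold NN
  rw [Finset.mul_sum]
  refine Finset.sum_congr rfl fun ζ hζ => ?_
  have hζ1 : ζ ⊆ S₀ := Finset.mem_powerset.1 hζ
  have hζ2 : ζ ⊆ EB d m := hζ1.trans (by rw [hS]; exact Finset.inter_subset_right)
  have hZ : (1 : ℝ) ≤ ZZ d x (D \ EB d m) 0 := (lat d).one_le_Z_zero fun _ _ => hx0.le
  have h2 : (lat d).L (fun _ => x) (D \ EB d m) (0 + (lat d).bd ζ) (fun η => f (ζ ∪ η)) =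
      f ζ * ZZ d x (D \ EB d m) ((lat d).bd ζ) := by
    rw [zero_add]
    have h3 : (lat d).L (fun _ => x) (D \ EB d m) ((lat d).bd ζ) (fun η => f (ζ ∪ η)) =
        (lat d).L (fun _ => x) (D \ EB d m) ((lat d).bd ζ) (fun _ => f ζ * 1) := by
      refine (lat d).L_congr _ (fun _ _ => rfl) fun η hη _ => ?_
      rw [hf (ζ ∪ η), mul_one, Finset.union_inter_distrib_right]
      have h4 : η ∩ EB d m = ∅ := by
        rw [← Finset.disjoint_iff_inter_eq_empty]
        exact Finset.disjoint_of_subset_left hη Finset.sdiff_disjoint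
      rw [h4, Finset.union_empty, ← hf ζ]
    rw [h3, (lat d).L_smul]
    rfl
  rw [h2, Finset.prod_const]
  change x ^ ζ.card * (f ζ * ZZ d x (D \ EB d m) ((lat d).bd ζ)) = ZZ d x (D \ EB d m) 0 *
    (x ^ ζ.card * f ζ * (ZZ d x (D \ EB d m) ((lat d).bd ζ) / ZZ d x (D \ EB d m) 0))
  field_simp

theorem EE_eq {m : ℕ} {x : ℝ} (hx0 : 0 < x) {S₀ D : Finset (Ed d)} (hS : S₀ = D ∩ EB d m)
    {f : Finset (Ed d) → ℝ} (hf : LocS (EB d m) f) :
    EE d x D 0 f = NN d m x S₀ D f / NN d m x S₀ D (fun _ => 1) := by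
  have hZ : (1 : ℝ) ≤ ZZ d x (D \ EB d m) 0 := (lat d).one_le_Z_zero fun _ _ => hx0.le
  have h1 : EE d x D 0 f = LL d x D 0 f / LL d x D 0 (fun _ => 1) := rfl
  rw [h1, LL_eq hx0 hS hf, LL_eq hx0 hS (f := fun _ => 1) (fun _ => rfl)]
  rw [mul_div_mul_left]
  linarith

theorem one_le_NN {m : ℕ} {x : ℝ} (hx0 : 0 < x) (S₀ D : Finset (Ed d)) :
    1 ≤ NN d m x S₀ D (fun _ => 1) := by
  classical
  unfold NN
  have h1 : (∅ : Finset (Ed d)) ∈ S₀.powerset := Finset.empty_mem_powerset _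
  refine le_trans ?_ (Finset.single_le_sum (f := fun ζ : Finset (Ed d) => x ^ ζ.card * 1 *
    CC d x (D \ EB d m) ((lat d).bd ζ)) (fun ζ _ => ?_) h1)
  · have h2 : CC d x (D \ EB d m) ((lat d).bd ∅) = 1 := by
      rw [(lat d).bd_empty]
      exact (lat d).corr_zero fun _ _ => hx0.le
    simp only [h2]
    simp
  · have h3 : 0 ≤ CC d x (D \ EB d m) ((lat d).bd ζ) := (lat d).corr_nonneg _ fun _ _ => hx0.le
    positivity

theorem abs_NN_le {m : ℕ} {x : ℝ} (hx0 : 0 < x) (S₀ D : Finset (Ed d))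
    {f : Finset (Ed d) → ℝ} (hf : ∀ η, |f η| ≤ 1) :
    |NN d m x S₀ D f| ≤ NN d m x S₀ D (fun _ => 1) := by
  unfold NN
  refine (Finset.abs_sum_le_sum_abs _ _).trans (Finset.sum_le_sum fun ζ _ => ?_)
  have h3 : 0 ≤ CC d x (D \ EB d m) ((lat d).bd ζ) := (lat d).corr_nonneg _ fun _ _ => hx0.le
  rw [abs_mul, abs_mul, abs_of_nonneg h3, abs_of_nonneg (pow_nonneg hx0.le _)]
  exact mul_le_mul_of_nonneg_right
    (mul_le_mul_of_nonneg_left (hf ζ) (pow_nonneg hx0.le _)) h3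

theorem abs_NN_sub_le {m : ℕ} {x : ℝ} (hx0 : 0 < x) (hx1 : x < 1) {S₀ D₁ D₂ : Finset (Ed d)}
    (hS : S₀ ⊆ EB d m) {f : Finset (Ed d) → ℝ} (hf : ∀ η, |f η| ≤ 1) {δ : ℝ}
    (hδ : ∀ ζ ⊆ EB d m, |CC d x (D₁ \ EB d m) ((lat d).bd ζ) -
      CC d x (D₂ \ EB d m) ((lat d).bd ζ)| ≤ δ) :
    |NN d m x S₀ D₁ f - NN d m x S₀ D₂ f| ≤ 2 ^ (EB d m).card * δ := by
  classical
  have hδ0 : 0 ≤ δ := (abs_nonneg _).trans (hδ ∅ (Finset.empty_subset _))
  unfold NN
  rw [← Finset.sum_sub_distrib]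
  refine (Finset.abs_sum_le_sum_abs _ _).trans ?_
  have h1 : ∀ ζ ∈ S₀.powerset, |x ^ ζ.card * f ζ * CC d x (D₁ \ EB d m) ((lat d).bd ζ) -
      x ^ ζ.card * f ζ * CC d x (D₂ \ EB d m) ((lat d).bd ζ)| ≤ δ := by
    intro ζ hζ
    rw [← mul_sub, abs_mul, abs_mul, abs_of_nonneg (pow_nonneg hx0.le _)]
    have h2 : x ^ ζ.card * |f ζ| ≤ 1 := by
      have := pow_le_one₀ (n := ζ.card) hx0.le hx1.le
      exact mul_le_one₀ this (abs_nonneg _) (hf ζ)
    calc x ^ ζ.card * |f ζ| * |CC d x (D₁ \ EB d m) ((lat d).bd ζ) -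
        CC d x (D₂ \ EB d m) ((lat d).bd ζ)| ≤ 1 * δ :=
          mul_le_mul h2 (hδ ζ ((Finset.mem_powerset.1 hζ).trans hS)) (abs_nonneg _) zero_le_one
      _ = δ := one_mul _
  refine (Finset.sum_le_sum h1).trans ?_
  rw [Finset.sum_const, nsmul_eq_mul, Finset.card_powerset]
  apply mul_le_mul_of_nonneg_right _ hδ0
  push_cast
  exact pow_le_pow_right₀ (by norm_num) (Finset.card_le_card hS)

theorem abs_EE_le {x : ℝ} (hx0 : 0 < x) (D : Finset (Ed d)) {f : Finset (Ed d) → ℝ}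
    (hf : ∀ η, |f η| ≤ 1) : |EE d x D 0 f| ≤ 1 := by
  have hZ : (1 : ℝ) ≤ (lat d).Z (fun _ => x) D 0 := (lat d).one_le_Z_zero fun _ _ => hx0.le
  change |(lat d).L (fun _ => x) D 0 f / (lat d).Z (fun _ => x) D 0| ≤ 1
  rw [abs_div, abs_of_pos (by linarith : 0 < (lat d).Z (fun _ => x) D 0), div_le_one (by linarith),
    abs_le]
  constructor
  · have h1 : (lat d).L (fun _ => x) D 0 (fun η => (-1) * 1) ≤ (lat d).L (fun _ => x) D 0 f :=
      (lat d).L_mono _ (fun _ _ => hx0.le) fun η _ _ => by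
        have := (abs_le.1 (hf η)).1
        linarith
    rw [(lat d).L_smul] at h1
    change -1 * (lat d).Z (fun _ => x) D 0 ≤ _ at h1
    linarith
  · exact (lat d).L_mono _ (fun _ _ => hx0.le) fun η _ _ => (abs_le.1 (hf η)).2

theorem div_sub_div_le {N₁ N₂ M₁ M₂ a : ℝ} (h1 : 1 ≤ M₁) (h2 : 1 ≤ M₂) (h3 : |N₂| ≤ M₂)
    (h4 : |N₁ - N₂| ≤ a) (h5 : |M₁ - M₂| ≤ a) : |N₁ / M₁ - N₂ / M₂| ≤ 2 * a := by
  have hM1 : 0 < M₁ := by linarith
  have hM2 : 0 < M₂ := by linarith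
  have ha : 0 ≤ a := (abs_nonneg _).trans h4
  have e : N₁ / M₁ - N₂ / M₂ = (N₁ - N₂) / M₁ - N₂ / M₂ * ((M₁ - M₂) / M₁) := by
    field_simp
    ring
  rw [e]
  refine (abs_sub _ _).trans ?_
  have h6 : |(N₁ - N₂) / M₁| ≤ a := by
    rw [abs_div, abs_of_pos hM1]
    exact (div_le_self (abs_nonneg _) h1).trans h4
  have h7 : |N₂ / M₂ * ((M₁ - M₂) / M₁)| ≤ a := by
    rw [abs_mul, abs_div, abs_div, abs_of_pos hM1, abs_of_pos hM2]
    have h8 : |N₂| / M₂ ≤ 1 := (div_le_one hM2).2 h3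
    have h9 : |M₁ - M₂| / M₁ ≤ a := (div_le_self (abs_nonneg _) h1).trans h5
    calc |N₂| / M₂ * (|M₁ - M₂| / M₁) ≤ 1 * a :=
          mul_le_mul h8 h9 (by positivity) zero_le_one
      _ = a := one_mul _
  linarith

theorem loc (d : ℕ) (x : ℝ) (hx0 : 0 < x) (hx1 : x < 1) (h : S_CLOC d x) : S_LOC d x := by
  classical
  obtain ⟨c, hc, C, hC, hCL⟩ := h
  refine ⟨c, hc, fun m => ?_⟩
  set C₁ : ℝ := 2 * Real.exp (c * (m + 2)) with hC₁
  set C₂ : ℝ := 2 * (2 ^ (EB d m).card * (C * ((2 * m + 1 : ℕ) : ℝ) ^ d *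
    Real.exp (c * (m + 1)))) with hC₂
  have hC₁0 : 0 ≤ C₁ := by positivity
  have hC₂0 : 0 ≤ C₂ := by positivity
  refine ⟨C₁ + C₂, add_nonneg hC₁0 hC₂0, fun D₁ D₂ ρ f hf hloc hD => ?_⟩
  rcases le_or_gt ρ (m + 2) with hρ | hρ
  · have h1 := abs_EE_le hx0 D₁ hf
    have h2 := abs_EE_le hx0 D₂ hf
    have h3 : |EE d x D₁ 0 f - EE d x D₂ 0 f| ≤ 2 := by
      refine (abs_sub _ _).trans ?_
      linarith
    refine h3.trans ?_
    have h4 : (2 : ℝ) ≤ C₁ * Real.exp (-c * ρ) := by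
      rw [hC₁, mul_assoc, ← Real.exp_add]
      have h5 : 0 ≤ c * (m + 2) + -c * ρ := by
        have : (ρ : ℝ) ≤ m + 2 := by exact_mod_cast hρ
        nlinarith
      have := Real.one_le_exp h5
      linarith
    have h5 : 0 ≤ C₂ * Real.exp (-c * ρ) := by positivity
    rw [add_mul]
    linarith
  · have hSS : D₁ ∩ EB d m = D₂ ∩ EB d m := by
      ext e
      simp only [Finset.mem_inter]
      constructor
      · rintro ⟨h1, h2⟩
        exact ⟨(hD e (EB_mono (by omega) h2)).1 h1, h2⟩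
      · rintro ⟨h1, h2⟩
        exact ⟨(hD e (EB_mono (by omega) h2)).2 h1, h2⟩
    have hδ : ∀ ζ ⊆ EB d m, |CC d x (D₁ \ EB d m) ((lat d).bd ζ) -
        CC d x (D₂ \ EB d m) ((lat d).bd ζ)| ≤
        C * ((2 * m + 1 : ℕ) : ℝ) ^ d * Real.exp (-c * ((ρ - (m + 1) : ℕ) : ℝ)) := by
      intro ζ hζ
      have hbd : (lat d).bd ζ = ind ((box d m).filter fun v => (lat d).bd ζ v ≠ 0) := by
        funext v
        unfold ind
        by_cases hv : (lat d).bd ζ v = 0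
        · rw [if_neg (by simp [hv]), hv]
        · have hvm : v ∈ box d m := by
            by_contra hvm
            apply hv
            apply (lat d).bd_eq_zero_of_not_touch
            intro e he
            have h1 := mem_EB.1 (hζ he)
            rw [mem_box] at hvm
            constructor
            · rintro rfl
              exact hvm h1.1
            · rintro rfl
              exact hvm h1.2
          rw [if_pos (by simp [hv, hvm])]
          have : ∀ z : ZMod 2, z ≠ 0 → z = 1 := by decide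
          exact this _ hv
      rw [hbd]
      refine (hCL (D₁ \ EB d m) (D₂ \ EB d m) _ (ρ - (m + 1)) ?_).trans ?_
      · rintro e ⟨a, ha, hea⟩
        have ha1 := mem_box.1 (Finset.mem_filter.1 ha).1
        have h1 : nm e.1 ≤ ρ - 1 := by
          have h2 := nm_add_le (e.1 - a) a
          rw [sub_add_cancel] at h2
          omega
        have h2 : nm (e.1 + ev e.2) ≤ ρ := by
          have h3 := nm_add_le e.1 (ev e.2)
          rw [nm_ev] at h3
          omega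
        have h3 : e ∈ EB d ρ := mem_EB.2 ⟨by omega, h2⟩
        simp only [Finset.mem_sdiff, hD e h3]
      · apply mul_le_mul_of_nonneg_right _ (Real.exp_pos _).le
        apply mul_le_mul_of_nonneg_left _ hC
        have : ((box d m).filter fun v => (lat d).bd ζ v ≠ 0).card ≤ (2 * m + 1) ^ d :=
          (Finset.card_filter_le _ _).trans (card_box m).le
        exact_mod_cast this
    rw [EE_eq hx0 (S₀ := D₁ ∩ EB d m) rfl hloc, EE_eq hx0 (S₀ := D₁ ∩ EB d m) hSS hloc]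
    refine (div_sub_div_le (one_le_NN hx0 _ _) (one_le_NN hx0 _ _) (abs_NN_le hx0 _ _ hf)
      (abs_NN_sub_le hx0 hx1 Finset.inter_subset_right hf hδ)
      (abs_NN_sub_le hx0 hx1 Finset.inter_subset_right (fun _ => by simp) hδ)).trans ?_
    have h6 : Real.exp (-c * ((ρ - (m + 1) : ℕ) : ℝ)) =
        Real.exp (c * (m + 1)) * Real.exp (-c * ρ) := by
      rw [← Real.exp_add, Nat.cast_sub (by omega)]
      congr 1
      push_cast
      ring
    rw [h6, add_mul]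
    have h7 : 0 ≤ C₁ * Real.exp (-c * ρ) := by positivity
    have h8 : 2 * (2 ^ (EB d m).card * (C * ((2 * m + 1 : ℕ) : ℝ) ^ d *
        (Real.exp (c * (m + 1)) * Real.exp (-c * ρ)))) = C₂ * Real.exp (-c * ρ) := by
      rw [hC₂]
      ring
    linarith

end Pool.Agent.TH551.J463
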