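import Pool.Agent.TH981.LO.Bas

/-!
# Loop O(1) uniqueness: probability of a bad block (job 465)
-/

set_option autoImplicit false

open Pool.Agent.TH981.LO
open scoped BigOperators symmDiff MeasureTheory

namespace Pool.Agent.TH551.J465

theorem fkp_false {V E : Type} [DecidableEq V] [DecidableEq E] (G : MG V E) (w : E → ℝ)
    (F : Finset E) : G.fkp w F (fun _ => False) = 0 := by
  unfold MG.fkp MG.PS
  simp

theorem fkp_union {V E I : Type} [DecidableEq V] [DecidableEq E] (G : MG V E)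
    {w : E → ℝ} {F : Finset E} (hw0 : ∀ e ∈ F, 0 ≤ w e) (hw1 : ∀ e ∈ F, w e ≤ 1)
    (S : Finset I) (P : I → Finset E → Prop) :
    G.fkp w F (fun ω => ∃ i ∈ S, P i ω) ≤ ∑ i ∈ S, G.fkp w F (P i) := by
  classical
  induction S using Finset.induction_on with
  | empty =>
    rw [Finset.sum_empty]
    refine (G.fkp_imp hw0 hw1 (Q := fun _ => False) ?_).trans (fkp_false G w F).le
    rintro ω _ ⟨i, hi, _⟩
    exact absurd hi (Finset.notMem_empty i)
  | insert a S ha ih =>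
    rw [Finset.sum_insert ha]
    refine (G.fkp_imp hw0 hw1 (Q := fun ω => P a ω ∨ ∃ i ∈ S, P i ω) ?_).trans
      ((G.fkp_or _ _ hw0 hw1).trans (add_le_add le_rfl ih))
    rintro ω _ ⟨i, hi, h⟩
    rcases Finset.mem_insert.1 hi with rfl | hi
    · exact Or.inl h
    · exact Or.inr ⟨i, hi, h⟩

theorem exists_k (d : ℕ) {c C ε : ℝ} (hc : 0 < c) (hC : 0 ≤ C) (hε : 0 < ε) :
    ∃ k : ℕ, 1 ≤ k ∧ ((2 * k + 1 : ℕ) : ℝ) ^ d * ((2 * k + 1 : ℕ) : ℝ) ^ d *
      (C * Real.exp (-c * ((k - 1 : ℕ) : ℝ))) ≤ ε := by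
  have h1 : Filter.Tendsto (fun k : ℕ => (c * (k : ℝ)) ^ (2 * d) * Real.exp (-(c * (k : ℝ))))
      Filter.atTop (nhds 0) :=
    (Real.tendsto_pow_mul_exp_neg_atTop_nhds_zero (2 * d)).comp
      ((Filter.tendsto_const_mul_atTop_of_pos hc).2 tendsto_natCast_atTop_atTop)
  have h2 := h1.const_mul (C * Real.exp c * (3 / c) ^ (2 * d))
  rw [mul_zero] at h2
  have h3 := (h2.eventually (gt_mem_nhds hε)).and (Filter.eventually_ge_atTop 1)
  obtain ⟨k, hk, hk1⟩ := h3.exists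
  refine ⟨k, hk1, le_trans ?_ hk.le⟩
  have hk1' : (1 : ℝ) ≤ (k : ℝ) := by exact_mod_cast hk1
  have h4 : ((2 * k + 1 : ℕ) : ℝ) ≤ 3 / c * (c * k) := by
    rw [div_mul_eq_mul_div, le_div_iff₀ hc]
    push_cast
    nlinarith
  have h5 : ((2 * k + 1 : ℕ) : ℝ) ^ d * ((2 * k + 1 : ℕ) : ℝ) ^ d ≤
      (3 / c) ^ (2 * d) * (c * k) ^ (2 * d) := by
    rw [← pow_add, ← mul_pow, ← two_mul]
    exact pow_le_pow_left₀ (Nat.cast_nonneg _) h4 _
  have h6 : Real.exp (-c * ((k - 1 : ℕ) : ℝ)) = Real.exp c * Real.exp (-(c * (k : ℝ))) := by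
    rw [← Real.exp_add, Nat.cast_sub hk1]
    congr 1
    push_cast
    ring
  rw [h6]
  calc ((2 * k + 1 : ℕ) : ℝ) ^ d * ((2 * k + 1 : ℕ) : ℝ) ^ d *
      (C * (Real.exp c * Real.exp (-(c * (k : ℝ)))))
      ≤ ((3 / c) ^ (2 * d) * (c * k) ^ (2 * d)) *
        (C * (Real.exp c * Real.exp (-(c * (k : ℝ))))) := by
        apply mul_le_mul_of_nonneg_right h5
        positivity
    _ = C * Real.exp c * (3 / c) ^ (2 * d) *
        ((c * (k : ℝ)) ^ (2 * d) * Real.exp (-(c * (k : ℝ)))) := by ring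

theorem badp (d : ℕ) (x : ℝ) (hx0 : 0 < x) (hx1 : x < 1) (h : S_UD d x) : S_BADP d x := by
  classical
  obtain ⟨c, hc, C, hC, hUD⟩ := h
  intro ε hε
  obtain ⟨k, hk1, hk⟩ := exists_k d hc hC hε
  refine ⟨k, hk1, fun F w j hw0 hw1 hw => ?_⟩
  -- the finite set of pairs
  have hcov : ∀ ω ⊆ F, Bad k j ω → ∃ p ∈ (box d k ×ˢ box d k).filter
      (fun p : Vt d × Vt d => blk k (p.1 + (k : ℤ) • j) = j ∧ nm p.2 = k),
      (lat d).Cn ω (p.1 + (k : ℤ) • j) (p.2 + (p.1 + (k : ℤ) • j)) := by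
    rintro ω hω ⟨v, hv, u, hu, hcn⟩
    refine ⟨(v - (k : ℤ) • j, u - v), ?_, ?_⟩
    · rw [Finset.mem_filter, Finset.mem_product, mem_box, mem_box]
      refine ⟨⟨?_, hu.le⟩, ?_, hu⟩
      · rw [nm_le_iff]
        intro i
        have h1 : v i / (k : ℤ) = j i := congrFun hv i
        have h2 := Int.emod_add_mul_ediv (v i) (k : ℤ)
        have hk0 : (0 : ℤ) < k := by exact_mod_cast hk1
        have h3 := Int.emod_nonneg (v i) hk0.ne'
        have h4 := Int.emod_lt_of_pos (v i) hk0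
        rw [h1] at h2
        have h5 : (v - (k : ℤ) • j) i = v i % (k : ℤ) := by
          simp only [Pi.sub_apply, Pi.smul_apply, smul_eq_mul]
          linarith
        change ((v - (k : ℤ) • j) i).natAbs ≤ k
        rw [h5]
        omega
      · rw [sub_add_cancel]
        exact hv
    · simp only [sub_add_cancel]
      exact (lat d).Cn_mono (Finset.filter_subset _ _) hcn
  refine ((lat d).fkp_imp hw0 hw1 hcov).trans ?_
  refine (fkp_union (lat d) hw0 hw1 _ (fun (p : Vt d × Vt d) ω =>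
    (lat d).Cn ω (p.1 + (k : ℤ) • j) (p.2 + (p.1 + (k : ℤ) • j)))).trans ?_
  have hterm : ∀ p ∈ (box d k ×ˢ box d k).filter
      (fun p : Vt d × Vt d => blk k (p.1 + (k : ℤ) • j) = j ∧ nm p.2 = k),
      (lat d).fkp w F (fun ω => (lat d).Cn ω (p.1 + (k : ℤ) • j)
        (p.2 + (p.1 + (k : ℤ) • j))) ≤ C * Real.exp (-c * ((k - 1 : ℕ) : ℝ)) := by
    intro p hp
    obtain ⟨_, hp1, hp2⟩ := Finset.mem_filter.1 hp
    have h1 : (lat d).fkp w F (fun ω => (lat d).Cn ω (p.1 + (k : ℤ) • j)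
        (p.2 + (p.1 + (k : ℤ) • j))) =
        (lat d).corr w F (two (p.1 + (k : ℤ) • j) (p.2 + (p.1 + (k : ℤ) • j))) := by
      rw [(lat d).corr_eq_fkp]
      congr 1
      funext ω
      rw [(lat d).fe_two_iff]
    rw [h1]
    refine hUD F w _ _ (k - 1) hw0 hw1 (fun e he he' => ?_) ?_
    · apply hw e he
      refine ⟨p.1 + (k : ℤ) • j, hp1, ?_⟩
      set v := p.1 + (k : ℤ) • j
      rcases he' with he' | he'
      · refine ⟨by omega, ?_⟩
        have : e.1 + ev e.2 - v = (e.1 - v) + ev e.2 := by abel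
        rw [this]
        have h2 := nm_add_le (e.1 - v) (ev e.2)
        rw [nm_ev] at h2
        omega
      · refine ⟨?_, by omega⟩
        have : e.1 - v = (e.1 + ev e.2 - v) - ev e.2 := by abel
        rw [this]
        have h2 := nm_sub_le (e.1 + ev e.2 - v) (ev e.2)
        rw [nm_ev] at h2
        omega
    · rw [add_sub_cancel_right, hp2]
      omega
  refine (Finset.sum_le_sum hterm).trans ?_
  rw [Finset.sum_const, nsmul_eq_mul]
  refine le_trans ?_ hk
  apply mul_le_mul_of_nonneg_right _ (mul_nonneg hC (Real.exp_pos _).le)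
  have h2 : ((box d k ×ˢ box d k).filter
      (fun p : Vt d × Vt d => blk k (p.1 + (k : ℤ) • j) = j ∧ nm p.2 = k)).card ≤
      (2 * k + 1) ^ d * (2 * k + 1) ^ d := by
    refine (Finset.card_filter_le _ _).trans ?_
    rw [Finset.card_product, card_box]
  exact_mod_cast h2

end Pool.Agent.TH551.J465
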